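import Pool.Agent.Q262.Circ.OnCircle
import Pool.Agent.Q262.Circ.I11202

/-!
The strong MC number `11202` has an MC-circle with only five lattice points.
-/

set_option autoImplicit false
set_option maxRecDepth 100000

namespace Pool.Agent.Results.MP_c7ed95_nt.FivePoints

open Q262.Circ

theorem coords : ((I11202.X : ℝ) / I11202.D = 1 / 4) ∧ ((I11202.Y : ℝ) / I11202.D = 1 / 4) ∧
    ((I11202.N : ℝ) / (I11202.D : ℝ) ^ 2 = 28561 / 8) := by
  unfold I11202.X I11202.D I11202.Y I11202.N
  norm_num

theorem isMax : MCCircle 11202 (1 / 4) (1 / 4) (Real.sqrt (28561 / 8)) := by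
  have h := I11202.isMax
  rwa [coords.1, coords.2.1, coords.2.2] at h

theorem points : (onCircle (1 / 4) (1 / 4) (Real.sqrt (28561 / 8))).encard = 5 := by
  have h := I11202.hex.onCircle_eq
  rw [coords.1, coords.2.1, coords.2.2] at h
  rw [h, show {p : ℤ × ℤ | p ∈ I11202.bs} = ((I11202.bs.toFinset : Finset (ℤ × ℤ)) :
    Set (ℤ × ℤ)) by ext p; simp, Set.encard_coe_eq_coe_finsetCard,
    List.toFinset_card_of_nodup I11202.hnd]
  rfl

/-- The number `11202` is a strong MC number, and its MC-circle with centre `(1/4, 1/4)` and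
squared radius `28561/8` has exactly five lattice points on its circumference. -/
theorem result : StrongMC 11202 ∧ MCCircle 11202 (1 / 4) (1 / 4) (Real.sqrt (28561 / 8)) ∧
    (onCircle (1 / 4) (1 / 4) (Real.sqrt (28561 / 8))).encard = 5 :=
  ⟨⟨⟨_, _, _, isMax⟩, I11202.nonMC_11203⟩, isMax, points⟩

end Pool.Agent.Results.MP_c7ed95_nt.FivePoints
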